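import Pool.Agent.N482.CHDefs
import Pool.Agent.Results.MP_70f607_gt.ClopenNotOpen

set_option autoImplicit false

open Set Topology Cardinal

namespace Pool.Agent.Results.MP_70f607_gt.ConsistentlyNotEquivalent

open Pool.Agent.Helper639.ForceCH (OmegaOnePreserved CHHolds)
open Pool.Agent.N482 (CH)

/-- `Γ`: the open `γ`-covers of `X`. -/
def Gamma (X : Type) [TopologicalSpace X] : Set (Set (Set X)) :=
  {𝒰 | (∀ U ∈ 𝒰, IsOpen U) ∧ Set.univ ∉ 𝒰 ∧ 𝒰.Infinite ∧ ∀ x : X, {U | U ∈ 𝒰 ∧ x ∉ U}.Finite}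

/-- `Ω`: the open `ω`-covers of `X`. -/
def Omega (X : Type) [TopologicalSpace X] : Set (Set (Set X)) :=
  {𝒰 | (∀ U ∈ 𝒰, IsOpen U) ∧ Set.univ ∉ 𝒰 ∧ ∀ F : Finset X, ∃ U ∈ 𝒰, (F : Set X) ⊆ U}

/-- `C_Γ`: the clopen `γ`-covers of `X`. -/
def CGamma (X : Type) [TopologicalSpace X] : Set (Set (Set X)) :=
  {𝒰 | 𝒰 ∈ Gamma X ∧ ∀ U ∈ 𝒰, IsClopen U}

/-- `C_Ω`: the clopen `ω`-covers of `X`. -/
def COmega (X : Type) [TopologicalSpace X] : Set (Set (Set X)) :=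
  {𝒰 | 𝒰 ∈ Omega X ∧ ∀ U ∈ 𝒰, IsClopen U}

/-- The selection principle `S₁(𝒜, ℬ)`. -/
def S1 {T : Type} (𝒜 ℬ : Set (Set T)) : Prop :=
  ∀ A : ℕ → Set T, (∀ n, A n ∈ 𝒜) → ∃ a : ℕ → T, (∀ n, a n ∈ A n) ∧ Set.range a ∈ ℬ

/-- `C_p(X)`: continuous real functions with the topology of pointwise convergence. -/
abbrev Cp (X : Type) [TopologicalSpace X] : Type := {f : X → ℝ // Continuous f}

/-- The zero function. -/
def zero (X : Type) [TopologicalSpace X] : Cp X := ⟨fun _ => 0, continuous_const⟩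

/-- `Γ_0`: countably infinite sets of functions, without `0`, converging to `0`. -/
def Gamma0 (X : Type) [TopologicalSpace X] : Set (Set (Cp X)) :=
  {A | A.Countable ∧ A.Infinite ∧ zero X ∉ A ∧ ∀ W ∈ 𝓝 (zero X), {f | f ∈ A ∧ f ∉ W}.Finite}

/-- `Ω_0`: sets of functions with `0` in the closure but not in the set. -/
def Omega0 (X : Type) [TopologicalSpace X] : Set (Set (Cp X)) :=
  {A | zero X ∈ closure A ∧ zero X ∉ A}

/-- (1) Some forcing notion preserves `ω₁` and forces the continuum hypothesis. (2) The continuum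
hypothesis implies that there is a set `X` of irrational numbers such that `C_p(X)` satisfies
`S₁(Γ_0, Ω_0)` and `X` satisfies `S₁(C_Γ, C_Ω)`, but `X` does not satisfy `S₁(Γ, Ω)`. -/
theorem result :
    (∃ (P : Type) (_ : Preorder P), Nonempty P ∧
      ∀ p : P, p ∈ OmegaOnePreserved P ∧ p ∈ CHHolds P) ∧
    (CH → ∃ X : Set ℝ, (∀ x ∈ X, Irrational x) ∧ S1 (Gamma0 X) (Omega0 X) ∧
      S1 (CGamma X) (COmega X) ∧ ¬ S1 (Gamma X) (Omega X)) :=
  ⟨Pool.Agent.N482.ch_forced, fun h =>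
    Pool.Agent.Results.MP_70f607_gt.ClopenNotOpen.result (Pool.Agent.N482.ch_iff.1 h)⟩

end Pool.Agent.Results.MP_70f607_gt.ConsistentlyNotEquivalent
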